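import Pool.Agent.W886.CS.Asm
import Pool.Agent.W585.CS.CSSEA
import Pool.Agent.W22.CS.NPX
import Pool.Agent.W975.CS.NPS
import Pool.Agent.W557.CSEXN
import Pool.Agent.W168.CS.PSE

/-!
# How many strings of a random oracle have to be changed to get `P^NP = NEXP`?

The number of changes is measured by a function `g`: the oracle `A` is obtained from `O` by changing,
for all large `n`, at most `g n` of the strings of length at most `n`. If `g n ≤ 2 ^ (n ^ ε)` for
every `ε > 0` and infinitely many `n`, then, for almost every oracle `O`, the classes `P^(NP^A)` and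
`NEXP^A` are different relative to all oracles `A` that are obtained from `O` by at most `g` changes,
however these changes depend on `O`: even `EXP^A ⊄ P^(NP^A) / poly`. Otherwise every oracle `O` can
be changed, by at most `g` changes, into an oracle `A` with `P^(NP^A) = NEXP^A`.

So the threshold is exactly at the functions which are not subexponential.
-/

set_option autoImplicit false

namespace Pool.Agent.Results.MP_92db0f_lc.ChangedStrings

open Pool.Agent.NPC Pool.Agent.H620R2.Gauge Pool.Agent.W900.CH Pool.Agent.W886.CS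
open Pool.Agent.H628R3.RO (randomOracle)
open MeasureTheory

theorem result (g : ℕ → ℝ) :
    ((∀ ε : ℝ, 0 < ε → ∃ᶠ n : ℕ in Filter.atTop, g n ≤ 2 ^ (n : ℝ) ^ ε) →
      ∀ᵐ O ∂randomOracle, ∀ A : Oracle, Close g O A →
        ∃ L, IsEXP A L ∧ IsNEXP A L ∧ ¬ IsPNP A L ∧ ¬ WithAdvice (IsPNP A) L) ∧
    ((¬ ∀ ε : ℝ, 0 < ε → ∃ᶠ n : ℕ in Filter.atTop, g n ≤ 2 ^ (n : ℝ) ^ ε) →
      ∀ O : Oracle, ∃ A : Oracle, Close g O A ∧ ∀ L, IsNEXP A L ↔ IsPNP A L) := by
  refine ⟨fun hg => ?_, fun hg O => ?_⟩
  · have hE := ae_far_P (S := {A : Oracle | WithAdvice (IsPSPACE A) (farLang A)})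
      (fun f hf => nullE hf _ fun A hA => hA) hg
    filter_upwards [hE] with O h3 A hA
    have h7 : ¬ WithAdvice (IsPSPACE A) (farLang A) := h3 A hA
    refine ⟨farLang A, farLang_exp A, Pool.Agent.W557.CSEXN.task A _ (farLang_exp A), fun h => ?_,
      ?_⟩
    · exact h7 (Pool.Agent.W975.CS.task A _ h).withAdvice
    · rintro ⟨L', h, p, h4, h5, h6⟩
      exact h7 ⟨L', h, p, Pool.Agent.W975.CS.task A _ h4, h5, h6⟩
  · push Not at hg
    obtain ⟨ε, hε, hg⟩ := hg
    obtain ⟨A, h1, h2⟩ := exists_close_PNP Pool.Agent.W22.CS.task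
      Pool.Agent.W585.CS.CSSEA.task hε hg O
    exact ⟨A, h1, fun L => ⟨h2 L, fun h => Pool.Agent.W557.CSEXN.task A _
      (Pool.Agent.W168.CS.task A _ (Pool.Agent.W975.CS.task A _ h))⟩⟩

end Pool.Agent.Results.MP_92db0f_lc.ChangedStrings
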